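import Mathlib

set_option autoImplicit false

namespace Pool.Agent.Results.MP_16b0c2_al.Yes

open FreeGroup hiding map_mul map_one map_inv
open scoped Pointwise commutatorElement

universe u

lemma center_free {B : Type u} [Nontrivial B] (z : FreeGroup B) (h : ∀ g, g * z = z * g) :
    z = 1 := by
  classical
  by_contra hz
  obtain ⟨x, w, hw⟩ : ∃ x w, z.toWord = x :: w := by
    cases e : z.toWord with
    | nil => exact (hz (toWord_eq_nil_iff.1 e)).elim
    | cons x w => exact ⟨x, w, rfl⟩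
  obtain ⟨c, hc⟩ := exists_ne x.1
  have h1 : (of c * z).toWord = (c, true) :: x :: w := by
    rw [toWord_mul, toWord_of, hw]
    exact IsReduced.reduce_eq (isReduced_cons_cons.2 ⟨fun e => (hc e).elim, hw ▸ isReduced_toWord⟩)
  have h2 := toWord_mul_sublist z (of c)
  rw [← h, h1, hw, toWord_of] at h2
  have := h2.eq_of_length (by simp)
  simp only [List.cons_append, List.cons.injEq] at this
  exact hc (congrArg Prod.fst this.1)

lemma cyc_free {B : Type u} [Subsingleton B] : IsCyclic (FreeGroup B) := by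
  cases isEmpty_or_nonempty B with
  | inl h => infer_instance
  | inr h =>
    obtain ⟨b⟩ := h
    refine ⟨of b, fun x => ?_⟩
    show x ∈ Subgroup.zpowers (of b)
    induction x with
    | C1 => exact one_mem _
    | of x => rw [Subsingleton.elim x b]; exact Subgroup.mem_zpowers _
    | inv_of x h => exact inv_mem h
    | mul x y h k => exact mul_mem h k

lemma cyc_of_center {G : Type u} [Group G] [IsFreeGroup G] (z : G) (hz : z ≠ 1)
    (h : ∀ g, g * z = z * g) : IsCyclic G := by
  let e := IsFreeGroup.toFreeGroup G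
  cases subsingleton_or_nontrivial (IsFreeGroup.Generators G) with
  | inl _ => exact (MulEquiv.isCyclic e).2 cyc_free
  | inr _ =>
    refine (hz (e.injective ((center_free (e z) fun g => ?_).trans (map_one e).symm))).elim
    obtain ⟨g, rfl⟩ := e.surjective g
    rw [← map_mul, h, map_mul]

lemma nonab {B : Type u} [Nontrivial B] (R : Subgroup (FreeGroup B)) [hR : R.Normal]
    (h : ∀ a ∈ R, ∀ b ∈ R, a * b = b * a) : R = ⊥ := by
  classical
  rw [eq_bot_iff]
  intro r hr
  by_contra h1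
  obtain ⟨t, ht⟩ := cyc_of_center (G := R) ⟨r, hr⟩ (fun e => h1 (congrArg Subtype.val e))
    fun g => Subtype.ext (h _ g.2 _ hr)
  have t1 : t.1 ≠ 1 := fun e => by
    obtain ⟨n, hn⟩ := ht ⟨r, hr⟩
    exact h1 (by simpa [e] using (congrArg Subtype.val hn).symm)
  have sq : ∀ a : FreeGroup B, a ^ 2 ∈ Subgroup.centralizer {t.1} := fun a => by
    obtain ⟨i, hi⟩ := ht ⟨_, hR.conj_mem _ t.2 a⟩
    obtain ⟨j, hj⟩ := ht ⟨_, hR.conj_mem _ t.2 a⁻¹⟩
    have hi' : t.1 ^ i = a * t * a⁻¹ := congrArg Subtype.val hi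
    have hj' : t.1 ^ j = a⁻¹ * t * a⁻¹⁻¹ := congrArg Subtype.val hj
    have e : t.1 ^ (i * j) = t.1 ^ (1 : ℤ) := by
      rw [zpow_mul, hi', conj_zpow, hj']; group
    have e3 : i * j = 1 := (injective_zpow_iff_not_isOfFinOrder.2
      (fun k => t1 (IsOfFinOrder.eq_one' k))) e
    have e4 : i * i = 1 := by rcases Int.eq_one_or_neg_one_of_mul_eq_one e3 with h | h <;> simp [h]
    have e5 : t.1 ^ (i * i) = a * (a * t * a⁻¹) * a⁻¹ := by rw [zpow_mul, hi', conj_zpow, hi']
    rw [e4, zpow_one] at e5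
    rw [Subgroup.mem_centralizer_singleton_iff]
    nth_rewrite 2 [e5]; rw [sq]; group
  have := cyc_of_center (G := Subgroup.centralizer {t.1})
    ⟨t.1, Subgroup.mem_centralizer_singleton_iff.2 rfl⟩ (fun e => t1 (congrArg Subtype.val e))
    fun g => Subtype.ext (Subgroup.mem_centralizer_singleton_iff.1 g.2)
  obtain ⟨a, b, hab⟩ := exists_pair_ne B
  have c := congrArg (fun x => lift (fun y => if y = a then
    (Equiv.swap 0 1 * Equiv.swap 1 2 : Equiv.Perm (Fin 4)) else Equiv.swap 1 2 * Equiv.swap 2 3) x)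
    (congrArg Subtype.val (this.isMulCommutative.is_comm.comm ⟨_, sq (of a)⟩ ⟨_, sq (of b)⟩))
  simp only [MulMemClass.mk_mul_mk, map_mul, map_pow, lift_apply_of, if_neg hab.symm, if_true] at c
  revert c; decide

section
variable {B : Type u} {Ω : Type u} [MulAction (FreeGroup B) Ω]

/-- the action on the homology cover of the Schreier graph -/
noncomputable def mu (Ω : Type u) [MulAction (FreeGroup B) Ω] :
    FreeGroup B →* Equiv.Perm (Ω × (Ω × B →₀ ℤ)) := lift fun x =>
  { toFun := fun v => (of x • v.1, v.2 + Finsupp.single (v.1, x) 1)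
    invFun := fun v => ((of x)⁻¹ • v.1, v.2 - Finsupp.single ((of x)⁻¹ • v.1, x) 1)
    left_inv := fun v => by simp
    right_inv := fun v => by simp }

noncomputable def p (g : FreeGroup B) (v : Ω) : Ω × B →₀ ℤ := (mu Ω g (v, 0)).2

lemma mu_eq (g : FreeGroup B) : ∀ (v : Ω) c, mu Ω g (v, c) = (g • v, c + p g v) := by
  unfold p
  induction g with
  | C1 => simp
  | of x => simp [mu]
  | inv_of x _ => intro v c; simp [mu, Equiv.Perm.inv_def, sub_eq_add_neg]
  | mul x y h k =>
    intro v c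
    simp only [map_mul, Equiv.Perm.mul_apply]
    rw [k v c, k v 0, h _ (c + _), h _ (0 + _)]; simp [mul_smul, add_assoc]

lemma p_mul (g h : FreeGroup B) (v : Ω) : p (g * h) v = p g (h • v) + p h v := by
  rw [p, map_mul, Equiv.Perm.mul_apply, mu_eq, mu_eq]; simp [add_comm]

lemma p_one (v : Ω) : p (1 : FreeGroup B) v = 0 := by simp [p]

lemma p_of (x : B) (v : Ω) : p (of x) v = Finsupp.single (v, x) 1 := by simp [p, mu]

lemma p_inv (g : FreeGroup B) (v : Ω) : p g⁻¹ v = -p g (g⁻¹ • v) := by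
  rw [eq_neg_iff_add_eq_zero, add_comm, ← p_mul, mul_inv_cancel, p_one]

lemma p_supp (g : FreeGroup B) :
    ∃ A : Set (FreeGroup B), A.Finite ∧ ∀ (v : Ω) e, p g v e ≠ 0 → ∃ a ∈ A, e.1 = a • v := by
  induction g with
  | C1 => exact ⟨∅, by simp, by simp [p_one]⟩
  | of x =>
    refine ⟨{1}, by simp, fun v e h => ⟨1, rfl, ?_⟩⟩
    rw [p_of, Finsupp.single_apply_ne_zero] at h; simp [h.1]
  | inv_of x h =>
    refine ⟨{(of x)⁻¹}, by simp, fun v e h => ⟨_, rfl, ?_⟩⟩
    rw [p_inv, p_of, Finsupp.neg_apply, neg_ne_zero, Finsupp.single_apply_ne_zero] at h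
    simp [h.1]
  | mul x y h k =>
    obtain ⟨A, hA, h⟩ := h
    obtain ⟨C, hC, k⟩ := k
    refine ⟨(· * y) '' A ∪ C, (hA.image _).union hC, fun v e he => ?_⟩
    rw [p_mul, Finsupp.add_apply] at he
    by_cases h0 : p y v e = 0
    · obtain ⟨a, ha, e1⟩ := h (y • v) e (by simpa [h0] using he)
      exact ⟨a * y, .inl ⟨a, ha, rfl⟩, by rw [e1, mul_smul]⟩
    · obtain ⟨a, ha, e1⟩ := k v e h0
      exact ⟨a, .inr ha, e1⟩

/-- the edge used by the letter `l` from the vertex `v` -/
def edge (l : B × Bool) (v : Ω) : Ω × B := (if l.2 then v else mk [l] • v, l.1)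

lemma mk_cons (l : B × Bool) (w : List (B × Bool)) : mk (l :: w) = mk [l] * mk w := rfl

lemma find (f : Ω → ℤ) (e : Ω × B) (v : Ω) (w : List (B × Bool))
    (h : ∀ l ∈ w, ∀ u, edge l u ≠ e → f (mk [l] • u) = f u) : f (mk w • v) = f v ∨
    ∃ a l b, w = a ++ l :: b ∧ edge l (mk b • v) = e ∧ f (mk w • v) = f (mk (l :: b) • v) := by
  induction w with
  | nil => left; rw [← one_eq_mk, one_smul]
  | cons l w ih =>
    by_cases he : edge l (mk w • v) = e
    · exact .inr ⟨[], l, w, rfl, he, rfl⟩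
    have := h l (by simp) _ he
    rw [mk_cons, mul_smul, this]
    refine (ih fun l hl => h l (by simp [hl])).imp id ?_
    rintro ⟨a, l', b, rfl, h1, h2⟩
    exact ⟨l :: a, l', b, rfl, h1, h2⟩

lemma tree (f : Ω × B → Ω → ℤ) (L : Set B) (G : Ω → Prop)
    (h : ∀ e : Ω × B, G e.1 → ∀ l : B × Bool, l.1 ∈ L → ∀ u,
      f e (mk [l] • u) = f e u ↔ edge l u ≠ e) (n : ℕ) :
    ∀ w : List (B × Bool), w.length < n → (∀ l ∈ w, l.1 ∈ L) → ∀ v : Ω,
      (∀ b, b <:+ w → G (mk b • v)) → mk w • v = v → mk w = 1 := by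
  induction n with
  | zero => simp
  | succ n ih =>
    rintro (_ | ⟨l, w⟩) hw hL v hG hv
    · rfl
    have g : G (edge l (mk w • v)).1 := by
      unfold edge; split_ifs
      · exact hG w (List.suffix_cons _ _)
      · rw [← mul_smul]; exact hG _ List.suffix_rfl
    have h1 := (h _ g l (hL l (by simp)) (mk w • v)).not.2 (by simp)
    rw [← mul_smul, ← mk_cons, hv] at h1
    rcases find (f (edge l (mk w • v))) _ v w
      (fun l' hl u => (h _ g l' (hL l' (by simp [hl])) u).2) with k | ⟨a, l', b, rfl, k1, k2⟩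
    · exact (h1 k.symm).elim
    rw [mk_cons, mul_smul] at hv
    rw [mk_cons l', mul_smul] at k2
    generalize hv' : mk (a ++ l' :: b) • v = v' at *
    obtain ⟨x, s⟩ := l
    obtain ⟨y, t⟩ := l'
    obtain rfl : y = x := congrArg Prod.snd k1
    have k3 := congrArg Prod.fst k1
    have inv : (mk [(y, false)] : FreeGroup B) = (mk [(y, true)])⁻¹ := rfl
    have key : mk [(y, s)] * mk [(y, t)] = (1 : FreeGroup B) ∧ mk b • v = v := by
      cases s <;> cases t <;> simp only [edge, if_true, Bool.false_eq_true, if_false] at k1 k3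
      · rw [k3, hv] at k2; exact (h1 k2.symm).elim
      · exact ⟨by rw [inv, inv_mul_cancel], k3.trans hv⟩
      · exact ⟨by rw [inv, mul_inv_cancel], by rwa [← k3, inv, smul_inv_smul] at hv⟩
      · rw [k3, hv] at k2; exact (h1 k2.symm).elim
    have hb := ih b (by simp at hw; omega) (fun l hl => hL l (by simp [hl])) v
      (fun c hc => hG c (hc.trans ⟨(y, s) :: (a ++ [(y, t)]), by simp⟩)) key.2
    have e : mk [(y, t)] • v = v' := by
      rw [← hv, ← mul_smul, mul_eq_one_comm.1 key.1, one_smul]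
    have e2 : ∀ c, mk (c ++ (y, t) :: b) • v = mk c • v' := fun c => by
      rw [← mul_mk, mk_cons, hb, mul_one, mul_smul, e]
    have ha := ih a (by simp at hw; omega) (fun l hl => hL l (by simp [hl])) v'
      (by
        rintro c ⟨d, rfl⟩
        rw [← e2]; exact hG _ ⟨(y, s) :: d, by simp⟩) (by rw [← e2, hv'])
    rw [mk_cons, ← mul_mk, mk_cons (y, t), ha, hb, mul_one, one_mul, key.1]

lemma pot (R : Subgroup (FreeGroup B)) [hR : R.Normal] (o : Ω) (tr : ∀ v, ∃ r ∈ R, r • o = v)
    (m : ℤ) (L : FreeGroup B → Ω × B →₀ ℤ) (hL : ∀ g h, L (g * h) = L g + L h)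
    (hu : ∀ u ∈ R, u • o = o → m • p u o = L u) :
    ∃ (P : Ω → Ω × B →₀ ℤ) (c : FreeGroup B → Ω × B →₀ ℤ),
      ∀ g v, m • p g v = P (g • v) - P v + c g := by
  choose r hr tr using tr
  have hP : ∀ s ∈ R, m • p (r (s • o)) o - L (r (s • o)) = m • p s o - L s := fun s hs => by
    have h1 : (s⁻¹ * r (s • o)) • o = o := by rw [mul_smul, tr, inv_smul_smul]
    have h2 := hu _ (mul_mem (inv_mem hs) (hr _)) h1
    have h3 := p_mul s (s⁻¹ * r (s • o)) o
    have h4 := hL s (s⁻¹ * r (s • o))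
    rw [mul_inv_cancel_left] at h3 h4
    rw [h3, h4, h1, smul_add, h2]; abel
  refine ⟨fun v => m • p (r v) o - L (r v),
    fun g => m • p g o - (m • p (r (g • o)) o - L (r (g • o))), fun g v => ?_⟩
  have h1 : g • v = (g * r v * g⁻¹ * r (g • o)) • o := by simp [mul_smul, tr]
  have h2 := p_mul (g * r v * g⁻¹) g o
  have h3 := hL (g * r v * g⁻¹) g
  rw [inv_mul_cancel_right] at h2 h3
  rw [p_mul, tr] at h2
  rw [hL, add_comm, add_left_inj] at h3
  beta_reduce
  rw [h1, hP _ (mul_mem (hR.conj_mem _ (hr v) g) (hr _)), p_mul, hL, tr, ← h3,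
    ← sub_eq_iff_eq_add.2 h2]
  module

lemma core (R : Subgroup (FreeGroup B)) [hR : R.Normal] (o : Ω) (tr : ∀ v, ∃ r ∈ R, r • o = v)
    (hc : ∀ a ∈ R, ∀ b ∈ R, mu Ω (a * b) = mu Ω (b * a))
    (hn : ∃ a ∈ R, ∃ b ∈ R, a * b ≠ b * a) : Subsingleton Ω := by
  classical
  obtain ⟨a, ha, b, hb, hab⟩ := hn
  have hc' : ∀ a ∈ R, ∀ b ∈ R, ∀ v : Ω, (a * b) • v = (b * a) • v ∧ p (a * b) v = p (b * a) v :=
    fun a ha b hb v => by
      have := congrArg (· (v, 0)) (hc a ha b hb)
      simpa [mu_eq, -map_mul] using this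
  have hu : ∀ u ∈ R, u • o = o → ∀ v, p u v = p u o := fun u hu h v => by
    obtain ⟨r, hr, rfl⟩ := tr v
    simpa [p_mul, h, add_comm] using (hc' u hu r hr o).2
  cases finite_or_infinite Ω with
  | inl _ =>
    have := Fintype.ofFinite Ω
    have hL : ∀ g h : FreeGroup B, ∑ v : Ω, p (g * h) v = ∑ v, p g v + ∑ v, p h v := fun g h => by
      simp only [p_mul, Finset.sum_add_distrib]
      rw [← Equiv.sum_comp (MulAction.toPerm h) (p g)]; rfl
    obtain ⟨P, c, h⟩ := pot R o tr (Fintype.card Ω) (fun g => ∑ v, p g v) hL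
      fun u h1 h2 => by simp [hu u h1 h2]
    have : Nonempty Ω := ⟨o⟩
    have d0 : (Fintype.card Ω : ℤ) ≠ 0 := by simp
    have h2 : ∀ g, c g = ∑ v, p g v := fun g => by
      have := Finset.sum_congr (rfl : Finset.univ = _) fun v _ => h g v
      have e : ∑ v, P (g • v) = ∑ v, P v := Equiv.sum_comp (MulAction.toPerm g) P
      rw [← Finset.smul_sum, Finset.sum_add_distrib, Finset.sum_sub_distrib, e, sub_self, zero_add,
        Finset.sum_const, Finset.card_univ, ← natCast_zsmul] at this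
      exact (smul_right_injective _ d0 this).symm
    have h3 : ∀ g k : FreeGroup B, g • o = k • o → ∀ x,
        (Fintype.card Ω : ℤ) ∣ c g (o, x) - c k (o, x) := fun g k e x => by
      have h4 := congrArg (· (o, x)) (h g o)
      have h5 := congrArg (· (o, x)) (h k o)
      simp only [e, Finsupp.smul_apply, Finsupp.add_apply, smul_eq_mul] at h4 h5
      exact ⟨p g o (o, x) - p k o (o, x), by linear_combination h5 - h4⟩
    have h4 : ∀ x y, c (of x) (o, y) = if x = y then 1 else 0 := fun x y => by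
      simp only [h2, p_of, Finsupp.finset_sum_apply, Finsupp.single_apply, Prod.mk.injEq]
      split_ifs with e <;> simp [e]
    have h5 : ∀ x y (i : ℕ), c (of x ^ i) (o, y) = if x = y then (i : ℤ) else 0 := fun x y i => by
      induction i with
      | zero => simp [h2, p_one]
      | succ i ih =>
        rw [pow_succ, h2, hL, ← h2, ← h2, Finsupp.add_apply, ih, h4]; split_ifs <;> simp
    obtain ⟨x, y, hxy⟩ : ∃ x y : B, x ≠ y := by
      by_contra k
      have : Subsingleton B := ⟨by simpa using k⟩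
      exact hab (cyc_free.isMulCommutative.is_comm.comm a b)
    by_contra k
    have d1 : ¬ (Fintype.card Ω : ℤ) ∣ 1 := fun e => k (Fintype.card_le_one_iff_subsingleton.1
      (by exact_mod_cast Int.le_of_dvd one_pos e))
    have := Fintype.card_le_of_injective (fun i : Option (Fin (Fintype.card Ω)) =>
      i.elim (of y) (fun i => of x ^ i.1) • o) ?_
    · simp at this
    rintro (_ | i) (_ | j) e
    · rfl
    · exact (d1 (by simpa [h4, h5, hxy] using h3 _ _ e y)).elim
    · exact (d1 (by simpa [h4, h5, hxy] using h3 _ _ e y)).elim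
    · have := h3 _ _ e x
      simp only [Option.elim, h5, if_true] at this
      have := Int.eq_zero_of_abs_lt_dvd this (by rw [abs_lt]; omega)
      congr 1; ext; omega
  | inr _ =>
    exfalso
    obtain ⟨P, c, h⟩ := pot R o tr 1 (fun _ => 0) (by simp) fun u h1 h2 => by
      obtain ⟨A, hA, k⟩ := p_supp (Ω := Ω) u
      ext e
      by_contra h0
      refine Set.infinite_univ ((hA.image fun a => a⁻¹ • e.1).subset fun v _ => ?_)
      obtain ⟨a, ha, e1⟩ := k v e (by simpa [hu u h1 h2] using h0)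
      exact ⟨a, ha, by simp [e1]⟩
    let w := (a * b * (b * a)⁻¹).toWord
    let V : Set Ω := ⋃ l ∈ w, Prod.fst '' ((c (of l.1)).support : Set (Ω × B))
    have hV : V.Finite := w.finite_toSet.biUnion fun l _ => (Finset.finite_toSet _).image _
    obtain ⟨v, hv⟩ := (Set.Finite.biUnion (w.tails.finite_toSet) (t := fun b => (mk b)⁻¹ • V)
      fun b _ => hV.smul_set).exists_notMem
    have := tree (fun e v => P v e) {x | ∃ l ∈ w, l.1 = x} (· ∉ V) ?_ _ w (Nat.lt_succ_self _)
      (fun l hl => ⟨l, hl, rfl⟩) v (fun b hb k => hv (Set.mem_biUnion (List.mem_tails _ _ |>.2 hb)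
        (Set.mem_inv_smul_set_iff.2 k)))
      (by rw [mk_toWord, mul_smul, (hc' a ha b hb _).1, smul_inv_smul])
    · exact hab (mul_inv_eq_one.1 (mk_toWord.symm.trans this))
    rintro e he ⟨x, s⟩ ⟨l, hl, rfl⟩ u
    have c0 : c (of l.1) e = 0 := by
      by_contra k
      exact he (Set.mem_biUnion hl ⟨e, by simpa using k, rfl⟩)
    have k : ∀ u, P (of l.1 • u) e = P u e + if (u, l.1) = e then 1 else 0 := fun u => by
      have := congrArg (· e) (h (of l.1) u)
      simp only [one_smul, p_of, Finsupp.single_apply, Finsupp.add_apply, Finsupp.sub_apply,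
        c0] at this
      omega
    cases s
    · have := k ((of l.1)⁻¹ • u)
      rw [smul_inv_smul] at this
      show P ((of l.1)⁻¹ • u) e = P u e ↔ ((of l.1)⁻¹ • u, l.1) ≠ e
      rw [this]; simp
    · show P (of l.1 • u) e = P u e ↔ (u, l.1) ≠ e
      rw [k]; simp

lemma main (R S : Subgroup (FreeGroup B)) [hR : R.Normal] (h : ⁅R, R⁆ ≤ ⁅S, S⁆) (ht : R ⊔ S = ⊤)
    (hn : ∃ a ∈ R, ∃ b ∈ R, a * b ≠ b * a) : S = ⊤ := by
  let o : FreeGroup B ⧸ S := (1 : FreeGroup B)
  have so : ∀ s ∈ S, s • o = o := fun s hs => QuotientGroup.eq.2 (by simpa)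
  have h1 : ⁅S, S⁆ ≤ (MulAction.stabilizer _ (o, (0 : (FreeGroup B ⧸ S) × B →₀ ℤ))).comap (mu (FreeGroup B ⧸ S)) := by
    rw [Subgroup.commutator_le]
    intro a ha b hb
    show mu _ _ (o, 0) = (o, 0)
    simp [commutatorElement_def, mu_eq, p_mul, p_inv, mul_smul, so _ ha, so _ hb, so _ (inv_mem ha),
      so _ (inv_mem hb), -map_mul]
  have := core R o (fun v => ?_) (fun a ha b hb => ?_) hn
  · exact Subgroup.eq_top_iff' _ |>.2 fun g => by
      simpa using QuotientGroup.eq.1 (Subsingleton.elim ((1 : FreeGroup B) : FreeGroup B ⧸ S) g)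
  · obtain ⟨g, rfl⟩ := QuotientGroup.mk_surjective v
    obtain ⟨r, hr, s, hs, rfl⟩ := Subgroup.mem_sup_of_normal_left.1 (ht ▸ Subgroup.mem_top g)
    exact ⟨r, hr, QuotientGroup.eq.2 (by simpa)⟩
  · rw [← mul_inv_eq_one, ← map_inv, ← map_mul]
    ext1 ⟨v, c⟩
    obtain ⟨g, rfl⟩ := QuotientGroup.mk_surjective v
    have e : (g : FreeGroup B ⧸ S) = g • o := by simp [o]
    have k : mu _ _ (o, 0) = (o, 0) := h1 (h (Subgroup.commutator_mem_commutator
      (hR.conj_mem _ ha g⁻¹) (hR.conj_mem _ hb g⁻¹)))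
    rw [show ⁅g⁻¹ * a * g⁻¹⁻¹, g⁻¹ * b * g⁻¹⁻¹⁆ = g⁻¹ * (a * b * (b * a)⁻¹ * g) by
      rw [commutatorElement_def]; group, mu_eq, Prod.mk.injEq, mul_smul, inv_smul_eq_iff, p_mul,
      p_mul _ g] at k
    obtain ⟨k1, k2⟩ := k
    rw [k1, p_inv, inv_smul_smul] at k2
    rw [mul_smul] at k1
    rw [e, mu_eq, k1]
    simpa using k2
end

theorem result (F : Type u) [Group F] [IsFreeGroup F] (hF : ¬ IsCyclic F) (R S : Subgroup F)
    [hR : R.Normal] (h : ⁅R, R⁆ ≤ ⁅S, S⁆) : R ≤ S := by
  by_cases hn : ∀ a ∈ R, ∀ b ∈ R, a * b = b * a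
  · let e := IsFreeGroup.toFreeGroup F
    cases subsingleton_or_nontrivial (IsFreeGroup.Generators F) with
    | inl _ => exact (hF ((MulEquiv.isCyclic e).2 cyc_free)).elim
    | inr _ =>
      have := hR.map e.toMonoidHom e.surjective
      have := nonab (R.map e.toMonoidHom) (by
        rintro _ ⟨a, ha, rfl⟩ _ ⟨b, hb, rfl⟩; rw [← map_mul, hn a ha b hb, map_mul])
      rw [Subgroup.map_eq_bot_iff_of_injective _ e.injective] at this
      simp [this]
  let e := IsFreeGroup.toFreeGroup (R ⊔ S : Subgroup F)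
  let f := (R ⊔ S).subtype.comp e.symm.toMonoidHom
  have fi : Function.Injective f := Subtype.val_injective.comp e.symm.injective
  have fr : f.range = R ⊔ S := by
    rw [MonoidHom.range_comp, MonoidHom.range_eq_top.2 e.symm.surjective,
      ← MonoidHom.range_eq_map, Subgroup.range_subtype]
  have h1 : (R.comap f).map f = R := Subgroup.map_comap_eq_self (le_sup_left.trans fr.ge)
  have h2 : (S.comap f).map f = S := Subgroup.map_comap_eq_self (le_sup_right.trans fr.ge)
  have := main (R.comap f) (S.comap f) (by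
      rwa [← Subgroup.map_le_map_iff_of_injective fi, Subgroup.map_commutator,
        Subgroup.map_commutator, h1, h2])
    (Subgroup.map_injective fi (by rw [Subgroup.map_sup, h1, h2, ← MonoidHom.range_eq_map, fr]))
    (by
      push Not at hn
      rw [← h1] at hn
      obtain ⟨_, ⟨a, ha, rfl⟩, _, ⟨b, hb, rfl⟩, k⟩ := hn
      exact ⟨a, ha, b, hb, fun e => k (by rw [← map_mul, e, map_mul])⟩)
  rw [← h2, this, ← MonoidHom.range_eq_map, fr]
  exact le_sup_left

end Pool.Agent.Results.MP_16b0c2_al.Yes
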